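import Mathlib
import Pool.Agent.Lib.MP_155693_co.Defs
import Pool.Agent.Lib.MP_155693_co.Mobius
import Pool.Agent.Lib.MP_155693_co.Upper
import Pool.Agent.Lib.MP_155693_co.Lower

/-!
# The polynomial removal threshold is not monotone under taking subgraphs

`blowC5` is the blow-up `C₅[3]` of the 5-cycle and `mobius12` the Möbius ladder on 12 vertices.
-/

namespace Pool.Agent.Results.MP_155693_co.PolyNotMonotone

open SimpleGraph Pool.Agent.Lib.MP_155693_co

/-- The Möbius ladder `M₁₂` is a subgraph of `C₅[3]`, but `δ_poly-rem(C₅[3]) ≤ 1/5` while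
`δ_poly-rem(M₁₂) ≥ 1/4`. In particular the polynomial removal threshold is not monotone. -/
theorem result :
    (mobius12 ⊑ blowC5 ∧ polyRemovalThreshold blowC5 ≤ 1 / 5 ∧
      1 / 4 ≤ polyRemovalThreshold mobius12) ∧
    ¬ (∀ (V W : Type) [Fintype V] [Fintype W] (H : SimpleGraph V) (H' : SimpleGraph W),
        H' ⊑ H → polyRemovalThreshold H' ≤ polyRemovalThreshold H) := by
  refine ⟨⟨mobius12_isContained, upper, lower⟩, ?_⟩
  intro hmono
  have h1 := hmono _ _ blowC5 mobius12 mobius12_isContained
  have h2 := upper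
  have h3 := lower
  linarith

end Pool.Agent.Results.MP_155693_co.PolyNotMonotone
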